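import Pool.Agent.H43.FW.BQA
import Pool.Agent.H43.FW.Pos

/-!
# Norm equations of varying biquadratic fields

For integral binary forms `F_0, F_1, F_2` of even degrees we consider the variety fibred over the
projective line whose fibre over `(x : y)` is the norm equation
`N_{ℚ(√F_0(x, y), √F_1(x, y)) / ℚ}(z) = F_2(x, y)`.
The fibres are torsors under the norm one tori of biquadratic fields, for which the Hasse principle fails
in general, and the field varies with the base point.  For almost all triples of forms the total space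
satisfies the Hasse principle, with approximation of the base point.
-/

set_option autoImplicit false
set_option linter.all false

namespace Pool.Agent.Results.MP_12adaf_nt.BiquadraticNorms

open Finset

/-- The value at `(x, y)` of the binary form of degree `d + 1` with the coefficients `c`. -/
def form {d : ℕ} (c : Fin (d + 2) → ℤ) {K : Type} [Field K] (x y : K) : K :=
  ∑ j : Fin (d + 2), (c j : K) * x ^ (d + 1 - (j : ℕ)) * y ^ (j : ℕ)

/-- The coefficients of triples of binary forms of degrees `d k + 1`. -/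
abbrev Forms (d : Fin 3 → ℕ) : Type := (k : Fin 3) → Fin (d k + 2) → ℤ

/-- The triples with coefficients of absolute value at most `H`. -/
noncomputable def box (d : Fin 3 → ℕ) (H : ℕ) : Finset (Forms d) :=
  Fintype.piFinset (fun k => Fintype.piFinset (fun _ => Icc (-(H : ℤ)) H))

/-- The norm form of `K(√a, √b) / K`: the norm of `w = z_0 + z_1 √a + z_2 √b + z_3 √a √b`. Indeed
`N_{K(√a, √b) / K(√a)}(w) = P + Q √a` with
`P = z_0² + a z_1² - b z_2² - a b z_3²`, `Q = 2 z_0 z_1 - 2 b z_2 z_3`, and this is `P² - a Q²`. -/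
def normForm {K : Type} [Field K] (a b : K) (z : Fin 4 → K) : K :=
  (z 0 ^ 2 + a * z 1 ^ 2 - b * z 2 ^ 2 - a * b * z 3 ^ 2) ^ 2 -
    a * (2 * z 0 * z 1 - 2 * b * z 2 * z 3) ^ 2

/-- The norm form is the product of the four conjugates (a check of the definition). -/
theorem normForm_eq {K : Type} [Field K] (α β : K) (z : Fin 4 → K) :
    normForm (α ^ 2) (β ^ 2) z =
      (z 0 + z 1 * α + z 2 * β + z 3 * (α * β)) * (z 0 + z 1 * α - z 2 * β - z 3 * (α * β)) *
      (z 0 - z 1 * α + z 2 * β - z 3 * (α * β)) * (z 0 - z 1 * α - z 2 * β + z 3 * (α * β)) := by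
  unfold normForm
  ring

/-- The variety `N_{K(√F_0, √F_1) / K}(z) = F_2` has a point over the field `K` over the point `(x, y)`
of the projective line, and no form vanishes there. -/
def Pt {d : Fin 3 → ℕ} (c : Forms d) {K : Type} [Field K] (x y : K) : Prop :=
  (∀ i, form (c i) x y ≠ 0) ∧
    ∃ z : Fin 4 → K, normForm (form (c 0) x y) (form (c 1) x y) z = form (c 2) x y

instance primeFact (p : Nat.Primes) : Fact (p : ℕ).Prime := ⟨p.2⟩

/-- There are real points over points `(1 : t)` with `t ∈ U`, and points over all `ℚ_p`. -/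
def Local {d : Fin 3 → ℕ} (U : Set ℝ) (c : Forms d) : Prop :=
  (∃ t ∈ U, Pt c (1 : ℝ) t) ∧ ∀ p : Nat.Primes, ∃ x y : ℚ_[(p : ℕ)], Pt c x y

/-- There is a rational point over a point `(1 : t)` with `t ∈ U`. -/
def Rational {d : Fin 3 → ℕ} (U : Set ℝ) (c : Forms d) : Prop :=
  ∃ x y : ℤ, 0 < x ∧ (y : ℝ) / x ∈ U ∧ Pt c (x : ℚ) (y : ℚ)

/-- For all local points over primitive base points `(X_p, Y_p)`, `p ∈ S`, there is a rational point
over a point `(1 : t)` with `t ∈ U` whose base point is congruent to them modulo `p ^ N`. -/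
def Approx {d : Fin 3 → ℕ} (U : Set ℝ) (S : Finset Nat.Primes) (N : ℕ) (c : Forms d) : Prop :=
  ∀ X Y : (p : Nat.Primes) → ℚ_[(p : ℕ)], (∀ p ∈ S, max ‖X p‖ ‖Y p‖ = 1 ∧ Pt c (X p) (Y p)) →
    ∃ x y : ℤ, 0 < x ∧ (y : ℝ) / x ∈ U ∧ Pt c (x : ℚ) (y : ℚ) ∧
      ∀ p ∈ S, ‖X p - (x : ℚ_[(p : ℕ)])‖ ≤ (((p : ℕ) : ℝ) ^ N)⁻¹ ∧
        ‖Y p - (y : ℚ_[(p : ℕ)])‖ ≤ (((p : ℕ) : ℝ) ^ N)⁻¹

lemma normForm_nf {K : Type} [Field K] (a b : K) (z : Fin 4 → K) :
    normForm a b z = Pool.Agent.H43.FW.nf a b z := by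
  unfold normForm Pool.Agent.H43.FW.nf
  ring

lemma lb_of_pt {K : Type} [Field K] (v : Fin 3 → K)
    (h : ∃ z : Fin 4 → K, normForm (v 0) (v 1) z = v 2) : Pool.Agent.H43.FW.LB K v := by
  obtain ⟨z, hz⟩ := h
  rw [normForm_nf] at hz
  exact ⟨Pool.Agent.H43.FW.NK.left ⟨z, hz⟩, Pool.Agent.H43.FW.NK.right ⟨z, hz⟩⟩

open Classical in
/-- **Theorem.** Let the degrees `d k + 1` be even. For almost all triples of integral binary forms
`F_0, F_1, F_2` of these degrees, ordered by height, the variety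
`N_{ℚ(√F_0(x, y), √F_1(x, y)) / ℚ}(z) = F_2(x, y)` has a rational point if it has points over `ℝ` over
`U` and over all `ℚ_p`, and then the base points of the rational points approximate the base points of
given `p`-adic points, `p ∈ S`.  A positive proportion of these varieties has rational points. -/
theorem result (d : Fin 3 → ℕ) (hd : ∀ k, Even (d k + 1)) (U : Set ℝ) (hU : IsOpen U) :
    (∀ (S : Finset Nat.Primes) (N : ℕ) (η : ℝ), 0 < η → ∃ H₀ : ℕ, ∀ H : ℕ, H₀ ≤ H →
      (((box d H).filter (fun c => Local U c ∧ ¬ Approx U S N c)).card : ℝ) ≤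
        η * ((box d H).card : ℝ)) ∧
    (U.Nonempty → ∃ δ : ℝ, 0 < δ ∧ ∃ H₀ : ℕ, ∀ H : ℕ, H₀ ≤ H →
      δ * ((box d H).card : ℝ) ≤ (((box d H).filter (fun c => Rational U c)).card : ℝ)) := by
  have hcard : ∀ H : ℕ, ((box d H).card : ℝ) =
      ((2 * H + 1 : ℕ) : ℝ) ^ Pool.Agent.N718.DC.ncI d := by
    intro H
    unfold box Pool.Agent.N718.DC.ncI
    simp only [Fintype.card_piFinset, prod_const, Int.card_Icc, card_univ, Fintype.card_fin]
    rw [prod_pow_eq_pow_sum]
    have : ((H : ℤ) + 1 - -(H : ℤ)).toNat = 2 * H + 1 := by omega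
    rw [this]
    push_cast
    rfl
  have hari := Pool.Agent.H43.FW.lb_ari
  have hsq := Pool.Agent.H43.FW.lb_sq
  have hhom := Pool.Agent.H43.FW.even_hom hsq d hd
  have hlb : ∀ (c : Forms d) {K : Type} [Field K] (x y : K), Pt c x y →
      Pool.Agent.H43.FW.PL Pool.Agent.H43.FW.LB c x y := fun c K _ x y h =>
    ⟨h.1, lb_of_pt (fun k => form (c k) x y) h.2⟩
  have hrb : ∀ (c : Forms d) (x y : ℚ), (∀ k, Pool.Agent.N718.DC.fmv (c k) x y ≠ 0) →
      Pool.Agent.H43.FW.RB (fun k => Pool.Agent.N718.DC.fmv (c k) x y) → Pt c x y := by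
    intro c x y hne hR
    obtain ⟨z, hz⟩ := hR
    exact ⟨hne, z, (normForm_nf _ _ z).trans hz⟩
  constructor
  · intro S N η hη
    obtain ⟨H₀, h⟩ := Pool.Agent.H43.FW.full_maina d (by norm_num) 0 hari hsq hhom U hU S N η hη
    refine ⟨H₀, fun H hH => ?_⟩
    rw [hcard]
    refine le_trans ?_ (h H hH)
    rw [Nat.cast_le]
    refine card_le_card fun c hc => ?_
    obtain ⟨hc1, ⟨⟨t, htU, ht⟩, hc2⟩, hc3⟩ := mem_filter.1 hc
    refine mem_filter.2 ⟨hc1, ⟨⟨t, htU, hlb c _ _ ht⟩, fun p => ?_⟩, fun ha => hc3 ?_⟩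
    · obtain ⟨x, y, hxy⟩ := hc2 p
      exact ⟨x, y, hlb c _ _ hxy⟩
    · intro X Y hXY
      obtain ⟨x, y, hx, hy, hne, hR, hcl⟩ := ha X Y
        (fun p hp => ⟨(hXY p hp).1, hlb c _ _ (hXY p hp).2⟩)
      exact ⟨x, y, hx, hy, hrb c _ _ hne hR, hcl⟩
  · rintro ⟨t₀, ht₀⟩
    obtain ⟨q, hqU⟩ := Rat.isDenseEmbedding_coe_real.dense.exists_mem_open hU ⟨t₀, ht₀⟩
    obtain ⟨c₀, hc₀⟩ : ∃ c₀ : Forms d, c₀ = fun k j => if j = 0 then 1 else 0 := ⟨_, rfl⟩
    obtain ⟨x, hx⟩ : ∃ x : ℤ, x = q.den := ⟨_, rfl⟩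
    obtain ⟨y, hy⟩ : ∃ y : ℤ, y = q.num := ⟨_, rfl⟩
    have hx0 : 0 < x := by
      rw [hx]
      exact_mod_cast q.den_pos
    have hyx : (y : ℝ) / x = q := by
      rw [hx, hy]
      push_cast
      rw [← Rat.cast_def q]
    have hval : ∀ k, Pool.Agent.N718.DC.fm (c₀ k) x y = (x ^ ((d k + 1) / 2)) ^ 2 := by
      intro k
      unfold Pool.Agent.N718.DC.fm
      rw [sum_eq_single (0 : Fin (d k + 2))]
      · rw [hc₀]
        simp only [if_true, one_mul, Fin.val_zero, Nat.sub_zero, pow_zero, mul_one]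
        rw [← pow_mul, Nat.div_mul_cancel (hd k).two_dvd]
      · intro j _ hj
        rw [hc₀]
        simp [hj]
      · intro h
        exact absurd (mem_univ _) h
    have hsp : ∀ (K : Type) [Field K] (a : ℤ) (N : K), Pool.Agent.W313.BMX.Splits
        (((a ^ 2 : ℤ)) : K) N := by
      intro K _ a N
      exact Pool.Agent.H43.FW.splits_of_isSquare' ⟨(a : K), by push_cast; ring⟩
    have hLB : ∀ (K : Type) [Field K], Pool.Agent.H43.FW.LB K
        (fun k => ((Pool.Agent.N718.DC.fm (c₀ k) x y : ℤ) : K)) := by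
      intro K _
      refine ⟨?_, ?_⟩
      · dsimp only
        rw [hval 0]
        exact hsp K _ _
      · dsimp only
        rw [hval 1]
        exact hsp K _ _
    obtain ⟨δ, hδ, H₀, h⟩ := Pool.Agent.H43.FW.full_mainc d 0 hari hsq U hU c₀ x y hx0
      (by rw [hyx]; exact hqU) (fun i => by
        rw [hval]
        exact pow_ne_zero _ (pow_ne_zero _ hx0.ne')) (hLB ℝ) (fun p _ => hLB ℚ_[p])
    refine ⟨δ, hδ, H₀, fun H hH => ?_⟩
    rw [hcard]
    refine h H hH _ fun c hc hex => ?_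
    obtain ⟨x, y, hx, hy, hne, hR⟩ := hex
    exact mem_filter.2 ⟨hc, x, y, hx, hy, hrb c _ _ hne hR⟩

end Pool.Agent.Results.MP_12adaf_nt.BiquadraticNorms
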