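import Pool.Agent.H43.UB.Pos
import Pool.Agent.H43.WA.Main

/-!
# The Brauer-Manin obstruction is the only obstruction to weak approximation for almost all systems of
# conic bundles

`m` integral binary forms `F_1, …, F_m` of any degrees are chosen at random, and an arbitrary finite
system of conics

  `z² = a_k ∏_{i ∈ I_k} F_i(x, y) u² + b_k ∏_{i ∈ J_k} F_i(x, y) v²`,  `k < r`,

is given, with constants `a_k, b_k ≠ 0` and any sets `I_k, J_k` of forms for which the two coefficients
have even degrees (every diagonal conic over `ℚ(t)` can be written in this way).  Let `X` be (a smooth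
projective model of) the fibre product over the projective line of these conic bundles.  It is
rationally connected, of dimension `r + 1`, and it has degenerate fibres over the zeros of all the forms.
We show that for almost all choices of the forms the Brauer-Manin obstruction, for certain classes from
the base, is the only obstruction to the existence of rational points on `X` and to weak approximation: for
100% of the families of forms, ordered by their height `H`, all the adelic points which are orthogonal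
to these classes are approximated by rational points to precision `1 / M(H)` at the real place and at
all the primes up to `M(H)`, for a function `M` with `M(H) → ∞`.  The base points are approximated in all
cases, the points in the fibres at the places at which the base point is not too close to the
degenerate fibres and to infinity (that is, farther away than about `1 / M(H)`).

The classes.  The conic `k` has at the zeros of `F_i` the residue
`c_{k,i} ∏_{j ≠ i} F_j ^ m_k(i, j)`, where `c_{k,i}` is a product of some of the numbers `a_k`, `b_k`,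
`-1`, and `m_k(i, j)` is the number of the pairs `(i, j)`, `(j, i)` in `I_k × J_k`.  For a set `R` of
pairs `(k, i)` we take the class `∑ (F_i, c_{k,i} ∏_{j > i} F_j ^ m_k(i, j))`, the sum over the `(k, i)`
in `R`.  It is called unramified if for all `i < j` the numbers of the `F_j` in the residues at `F_i`
and of the `F_i` in the residues at `F_j`, of the conics with `(k, i) ∈ R` and `(k, j) ∈ R`, have even
sum, and if a certain number, the residue at infinity, is a square.  Then its residue at each `F_i` is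
the product of the residues of conics with `(k, i) ∈ R`, so that its inverse image on `X` is unramified,
i.e. it is in the Brauer group of `X`.

Only some of the unramified classes can obstruct for almost all tuples.  A class is called persistent if
it is unramified and if for all large primes `p` it is trivial at all the `p`-adic points of `X` at which
at most two of the forms are divisible by `p`.  For the conic `z² = a F_1 F_2 u² + b v²`, for instance, the
class `(F_1, b)` is unramified (if the degrees are even) but not persistent.  For a typical tuple there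
are many primes at which two forms have a common zero, and we show that only the persistent classes
matter: orthogonality to the other classes is not needed.
-/

set_option autoImplicit false
set_option linter.all false

namespace Pool.Agent.Results.MP_12adaf_nt.BrauerManinConicSystems

open Finset Filter Topology

/-- The value at `(x, y)` of the binary form of degree `d + 1` with the coefficients `c`. -/
def form {d : ℕ} (c : Fin (d + 2) → ℤ) {K : Type} [Field K] (x y : K) : K :=
  ∑ j : Fin (d + 2), (c j : K) * x ^ (d + 1 - (j : ℕ)) * y ^ (j : ℕ)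

/-- The coefficients of tuples of `m` binary forms of degrees `d k + 1`. -/
abbrev Forms {m : ℕ} (d : Fin m → ℕ) : Type := (k : Fin m) → Fin (d k + 2) → ℤ

/-- The tuples with coefficients of absolute value at most `H`. -/
noncomputable def box {m : ℕ} (d : Fin m → ℕ) (H : ℕ) : Finset (Forms d) :=
  Fintype.piFinset (fun k => Fintype.piFinset (fun _ => Icc (-(H : ℤ)) H))

/-- The data of the conics `z² = a_k ∏_{i ∈ I_k} F_i u² + b_k ∏_{i ∈ J_k} F_i v²`, `k < r`. -/
structure System (r m : ℕ) where
  /-- the forms which divide the first coefficient -/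
  I : Fin r → Finset (Fin m)
  /-- the forms which divide the second coefficient -/
  J : Fin r → Finset (Fin m)
  /-- the constant in the first coefficient -/
  a : Fin r → ℤ
  /-- the constant in the second coefficient -/
  b : Fin r → ℤ
  ha : ∀ k, a k ≠ 0
  hb : ∀ k, b k ≠ 0

variable {r m : ℕ} {d : Fin m → ℕ}

/-- The degrees of all the coefficients are even. -/
def EvenDegrees (E : System r m) (d : Fin m → ℕ) : Prop :=
  ∀ k, Even (∑ i ∈ E.I k, (d i + 1)) ∧ Even (∑ i ∈ E.J k, (d i + 1))

/-- `(t, w)` is a point over the field `K` of the part of `X` over the affine line where no form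
vanishes: `w k = (u, v, z)` are homogeneous coordinates of a point of the conic
`z² = a_k ∏_{i ∈ I_k} F_i(1, t) u² + b_k ∏_{i ∈ J_k} F_i(1, t) v²`. -/
def IsPoint (E : System r m) (c : Forms d) {K : Type} [Field K] (t : K) (w : Fin r → Fin 3 → K) :
    Prop :=
  (∀ i, form (c i) 1 t ≠ 0) ∧ ∀ k, w k ≠ 0 ∧
    w k 2 ^ 2 = ((E.a k : K) * ∏ i ∈ E.I k, form (c i) 1 t) * w k 0 ^ 2 +
      ((E.b k : K) * ∏ i ∈ E.J k, form (c i) 1 t) * w k 1 ^ 2

/-! ### The Brauer classes -/

/-- The conic `z² = A u² + B v²` has a point over `K`. -/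
def ConicPoint {K : Type} [Field K] (A B : K) : Prop :=
  ∃ u v z : K, (u ≠ 0 ∨ v ≠ 0 ∨ z ≠ 0) ∧ z ^ 2 = A * u ^ 2 + B * v ^ 2

/-- The constant `c_{k,i}` in the residue of the conic `k` at the form `F_i`. -/
def System.const (E : System r m) (k : Fin r) (i : Fin m) : ℤ :=
  (if i ∈ E.I k then E.b k else 1) * (if i ∈ E.J k then E.a k else 1) *
    (if i ∈ E.I k ∧ i ∈ E.J k then -1 else 1)

/-- The exponent `m_k(i, j)` of `F_j` in the residue of the conic `k` at `F_i`. -/
def System.mult (E : System r m) (k : Fin r) (i j : Fin m) : ℕ :=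
  (if i ∈ E.I k ∧ j ∈ E.J k then 1 else 0) + (if j ∈ E.I k ∧ i ∈ E.J k then 1 else 0)

open Classical in
/-- The Hilbert symbol over `K`. -/
noncomputable def symbol {K : Type} [Field K] (A B : K) : ℤ := if ConicPoint A B then 1 else -1

/-- The value, as a sign, of the class `∑_{(k, i) ∈ R} (F_i, c_{k,i} ∏_{j > i} F_j ^ m_k(i, j))` for the
values `v i` of the `F_i`. -/
noncomputable def valueAt (E : System r m) (R : Finset (Fin r × Fin m)) {K : Type} [Field K]
    (v : Fin m → K) : ℤ :=
  ∏ q ∈ R, symbol (v q.2) ((E.const q.1 q.2 : K) * ∏ j ∈ Ioi q.2, v j ^ E.mult q.1 q.2 j)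

/-- The value of the class at a point over `(x, y)`. -/
noncomputable def value (E : System r m) (c : Forms d) (R : Finset (Fin r × Fin m)) {K : Type}
    [Field K] (x y : K) : ℤ :=
  valueAt E R (fun i => form (c i) x y)

/-- The class is unramified: for `i < j` the exponents of `F_j` at `F_i` and of `F_i` at `F_j` have even
sum, and the residue at infinity is a square. -/
def Unramified (E : System r m) (d : Fin m → ℕ) (R : Finset (Fin r × Fin m)) : Prop :=
  (∀ i j, i < j → Even (∑ q ∈ R, if q.2 = i ∨ q.2 = j then E.mult q.1 i j else 0)) ∧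
  IsSquare (∏ q ∈ R, ((-1) ^ ((d q.2 + 1) * ∑ j ∈ Ioi q.2, (d j + 1) * E.mult q.1 q.2 j) *
    E.const q.1 q.2 ^ (d q.2 + 1)))

instance primeFact (p : Nat.Primes) : Fact (p : ℕ).Prime := ⟨p.2⟩

/-- The unramified class is persistent: for all large primes `p` it is trivial for all the values
`v i` of the forms, at most two of them divisible by `p`, for which the conics have `p`-adic points. -/
def Persistent (E : System r m) (d : Fin m → ℕ) (R : Finset (Fin r × Fin m)) : Prop :=
  Unramified E d R ∧ ∃ B : ℕ, ∀ p : Nat.Primes, B < (p : ℕ) → ∀ v : Fin m → ℤ, (∀ i, v i ≠ 0) →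
    (∃ i j, ∀ k, ((p : ℕ) : ℤ) ∣ v k → k = i ∨ k = j) →
    (∀ k, ConicPoint ((E.a k : ℚ_[(p : ℕ)]) * ∏ i ∈ E.I k, (v i : ℚ_[(p : ℕ)]))
      ((E.b k : ℚ_[(p : ℕ)]) * ∏ i ∈ E.J k, (v i : ℚ_[(p : ℕ)]))) →
    valueAt E R (fun i => (v i : ℚ_[(p : ℕ)])) = 1

/-- The local points over `(X p, Y p)` and `(1, t)` are orthogonal to the Brauer classes: for every
persistent unramified class the values are trivial outside of a finite set of primes, and their product
is `1`. -/
def Orthogonal (E : System r m) (c : Forms d) (X Y : (p : Nat.Primes) → ℚ_[(p : ℕ)]) (t : ℝ) : Prop :=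
  ∀ R, Persistent E d R → ∃ T : Finset Nat.Primes, (∀ p, p ∉ T → value E c R (X p) (Y p) = 1) ∧
    value E c R (1 : ℝ) t * ∏ p ∈ T, value E c R (X p) (Y p) = 1

/-! ### Weak approximation -/

/-- After multiplication of `b` by a nonzero number of `K`, each of the homogeneous coordinates `a j`
and `b j` differ by at most `δ` times the absolute value of `a j`, up to an error `ε`. -/
def Close {K : Type} [NormedField K] (δ ε : ℝ) (a b : Fin 3 → K) : Prop :=
  ∃ l : K, l ≠ 0 ∧ ∀ j, ‖a j - l * b j‖ ≤ δ * ‖a j‖ + ε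

/-- The persistent classes are the only obstruction to weak approximation to precision `1 / M` at the real
place and at the primes up to `M`, for a tuple of forms of height at most `H`.  Let a `p`-adic point
`(Y p / X p, w p)` be given for every prime `p`, with primitive coordinates `(X p, Y p)`, and a real
point `(t, wR)`, such that these points are orthogonal to the classes; let `ε > 0` be arbitrary.  Then
there is a rational point `(y / x, z)`, `x` and `y` integers, such that for all primes `p ≤ M`

* `x` and `y` differ from `X p` and `Y p` by at most `1 / M` (in `ℚ_p`),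
* the coordinates `z k` and `w p k` in the fibres are close, if `|Y p / X p| ≤ M` and if no value
  `F_i(1, Y p / X p)` is smaller than `1 / M`,

and that, at the real place,

* if `|t| > M` then `|y / x| > M`,
* if `|t| ≤ M` then `t` and `y / x` differ by at most `1 / M`, and the coordinates `z k` and `wR k` in the
  fibres are close if no value `F_i(1, t)` is smaller than `H / M`. -/
def OnlyObstruction (E : System r m) (H M : ℕ) (c : Forms d) : Prop :=
  ∀ (X Y : (p : Nat.Primes) → ℚ_[(p : ℕ)]) (w : (p : Nat.Primes) → Fin r → Fin 3 → ℚ_[(p : ℕ)])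
    (t : ℝ) (wR : Fin r → Fin 3 → ℝ), (∀ p, X p ≠ 0) → (∀ p, max ‖X p‖ ‖Y p‖ = 1) →
    (∀ p, IsPoint E c (Y p / X p) (w p)) → IsPoint E c t wR → Orthogonal E c X Y t →
    ∀ ε : ℝ, 0 < ε →
    ∃ (x y : ℤ) (z : Fin r → Fin 3 → ℚ), 0 < x ∧ IsPoint E c ((y : ℚ) / x) z ∧
      (∀ p : Nat.Primes, (p : ℕ) ≤ M → ‖X p - (x : ℚ_[(p : ℕ)])‖ ≤ 1 / (M : ℝ) ∧
        ‖Y p - (y : ℚ_[(p : ℕ)])‖ ≤ 1 / (M : ℝ) ∧
        (‖Y p / X p‖ ≤ M → (∀ i, 1 / (M : ℝ) ≤ ‖form (c i) 1 (Y p / X p)‖) →
          ∀ k, Close (1 / (M : ℝ)) ε (w p k) (fun j => (z k j : ℚ_[(p : ℕ)])))) ∧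
      ((M : ℝ) < |t| → (M : ℝ) < |(y : ℝ) / x|) ∧
      (|t| ≤ M → |t - (y : ℝ) / x| ≤ 1 / (M : ℝ) ∧
        ((∀ i, (H : ℝ) / (M : ℝ) ≤ |form (c i) 1 t|) →
          ∀ k, Close (1 / (M : ℝ)) ε (wR k) (fun j => (z k j : ℝ))))

/-- There is a rational point of `X` over a point `t ∈ U` where no form vanishes. -/
def Rational (E : System r m) (U : Set ℝ) (c : Forms d) : Prop :=
  ∃ (t : ℚ) (z : Fin r → Fin 3 → ℚ), (t : ℝ) ∈ U ∧ IsPoint E c t z

/-- the system in the notation of the proof -/
def toSy (E : System r m) : Pool.Agent.H43.UB.Sy r m := ⟨E.I, E.J, E.a, E.b, E.ha, E.hb⟩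

/-- Diagonalisation: if `Q H m` holds for every `m ≥ 1` and all large `H`, then there is a function `m`
tending to infinity such that `Q H (m H)` holds for all large `H`. -/
lemma diagonal (Q : ℕ → ℕ → Prop) (hQ : ∀ m : ℕ, 1 ≤ m → ∃ H₀ : ℕ, ∀ H : ℕ, H₀ ≤ H → Q H m) :
    ∃ m : ℕ → ℕ, Tendsto m atTop atTop ∧ ∀ᶠ H : ℕ in atTop, Q H (m H) := by
  choose! H₀ hH₀ using hQ
  refine ⟨fun H => Nat.findGreatest (fun m => ∑ k ∈ Icc 1 m, H₀ k ≤ H) H, ?_, ?_⟩
  · refine tendsto_atTop.2 fun M => eventually_atTop.2 ⟨max M (∑ k ∈ Icc 1 M, H₀ k), fun H hH => ?_⟩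
    exact Nat.le_findGreatest ((le_max_left _ _).trans hH) ((le_max_right _ _).trans hH)
  · refine eventually_atTop.2 ⟨max 1 (∑ k ∈ Icc 1 1, H₀ k), fun H hH => ?_⟩
    have hP1 : ∑ k ∈ Icc 1 1, H₀ k ≤ H := (le_max_right _ _).trans hH
    have h1 : 1 ≤ Nat.findGreatest (fun m => ∑ k ∈ Icc 1 m, H₀ k ≤ H) H :=
      Nat.le_findGreatest (P := fun m => ∑ k ∈ Icc 1 m, H₀ k ≤ H) ((le_max_left _ _).trans hH) hP1
    have h2 : ∑ k ∈ Icc 1 (Nat.findGreatest (fun m => ∑ k ∈ Icc 1 m, H₀ k ≤ H) H), H₀ k ≤ H :=
      Nat.findGreatest_spec (P := fun m => ∑ k ∈ Icc 1 m, H₀ k ≤ H)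
        ((le_max_left _ _).trans hH) hP1
    exact hH₀ _ h1 H ((Finset.single_le_sum (f := H₀) (fun _ _ => Nat.zero_le _)
      (Finset.mem_Icc.2 ⟨h1, le_rfl⟩)).trans h2)

lemma card_box (d : Fin m → ℕ) (H : ℕ) : ((box d H).card : ℝ) =
    ((2 * H + 1 : ℕ) : ℝ) ^ Pool.Agent.N718.DC.ncI d := by
  unfold box Pool.Agent.N718.DC.ncI
  simp only [Fintype.card_piFinset, prod_const, Int.card_Icc, card_univ, Fintype.card_fin]
  rw [prod_pow_eq_pow_sum]
  have : ((H : ℤ) + 1 - -(H : ℤ)).toNat = 2 * H + 1 := by omega
  rw [this]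
  push_cast
  rfl

open Classical in
/-- **Theorem.** Let `E` be any finite system of conics whose coefficients are constants times products
of `m` binary forms, of even degrees.  For 100% of the tuples of integral binary forms, ordered by
height, the Brauer-Manin obstruction, for the persistent classes, is the only obstruction to weak
approximation, to a precision which tends to `0`.  If for one tuple of forms there is a rational point
over the open set `U` of the real line, then this is the case for a positive proportion of the tuples. -/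
theorem result (r m : ℕ) (d : Fin m → ℕ) (E : System r m) (hE : EvenDegrees E d) :
    (∃ M : ℕ → ℕ, Tendsto M atTop atTop ∧ Tendsto (fun H : ℕ =>
      (((box d H).filter (fun c => OnlyObstruction E H (M H) c)).card : ℝ) /
        ((box d H).card : ℝ)) atTop (𝓝 1)) ∧
    ∀ U : Set ℝ, IsOpen U → (∃ c₀ : Forms d, Rational E U c₀) → ∃ δ : ℝ, 0 < δ ∧ ∃ H₀ : ℕ,
      ∀ H : ℕ, H₀ ≤ H →
        δ * ((box d H).card : ℝ) ≤ (((box d H).filter (fun c => Rational E U c)).card : ℝ) := by
  have hpos : ∀ H : ℕ, (0 : ℝ) < ((box d H).card : ℝ) := by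
    intro H
    rw [card_box]
    positivity
  constructor
  · obtain ⟨M, hM, hev⟩ := diagonal (fun H M => 
      (((box d H).filter (fun c => ¬ OnlyObstruction E H M c)).card : ℝ) ≤
        1 / (M : ℝ) * ((box d H).card : ℝ)) (fun M hM => by
        obtain ⟨H₀, h⟩ := Pool.Agent.H43.WA.mainwu r m (toSy E) d hE M (1 / (M : ℝ)) hM
          (by positivity)
        refine ⟨H₀, fun H hH => ?_⟩
        rw [card_box]
        refine le_trans ?_ (h H hH)
        rw [Nat.cast_le]
        refine card_le_card fun c hc => ?_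
        obtain ⟨hc1, hc2⟩ := mem_filter.1 hc
        exact mem_filter.2 ⟨hc1, fun hg => hc2 fun X Y w t wR h1 h2 h3 h4 hO =>
          hg X Y w t wR h1 h2 h3 h4 fun R hR =>
            hO R (Pool.Agent.H43.UB.Sy.per_of (toSy E) hE R hR.1 hR.2)⟩)
    refine ⟨M, hM, ?_⟩
    have hlow : Tendsto (fun H : ℕ => 1 - 1 / ((M H : ℕ) : ℝ)) atTop (𝓝 1) := by
      have h1 : Tendsto (fun H : ℕ => 1 / ((M H : ℕ) : ℝ)) atTop (𝓝 0) := by
        have := tendsto_one_div_atTop_nhds_zero_nat (𝕜 := ℝ)
        exact this.comp hM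
      simpa using (tendsto_const_nhds (x := (1 : ℝ))).sub h1
    refine tendsto_of_tendsto_of_tendsto_of_le_of_le' hlow tendsto_const_nhds ?_ ?_
    · filter_upwards [hev] with H hH
      rw [le_div_iff₀ (hpos H)]
      have h1 := Finset.card_filter_add_card_filter_not (s := box d H)
        (fun c => OnlyObstruction E H (M H) c)
      have h2 : (((box d H).filter (fun c => OnlyObstruction E H (M H) c)).card : ℝ) +
          (((box d H).filter (fun c => ¬ OnlyObstruction E H (M H) c)).card : ℝ) =
          ((box d H).card : ℝ) := by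
        exact_mod_cast h1
      linarith
    · filter_upwards with H
      rw [div_le_one (hpos H)]
      exact_mod_cast card_le_card (filter_subset _ _)
  · rintro U hU ⟨c₀, t, z, htU, hne, hsol⟩
    have hcast : ∀ (K : Type) [Field K] (c : Forms d) (k : Fin m) (x y : ℤ),
        form (c k) (x : K) (y : K) = ((Pool.Agent.N718.DC.fm (c k) x y : ℤ) : K) := by
      intro K _ c k x y
      unfold form Pool.Agent.N718.DC.fm
      push_cast
      rfl
    -- homogeneous coordinates
    have hx : (0 : ℤ) < (t.den : ℤ) := by exact_mod_cast t.den_pos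
    have hxQ : ((t.den : ℤ) : ℚ) ≠ 0 := by exact_mod_cast hx.ne'
    have ht : t = ((t.num : ℤ) : ℚ) / ((t.den : ℤ) : ℚ) := by
      have := Rat.num_div_den t
      exact_mod_cast this.symm
    have hPL1 : Pool.Agent.H43.FW.PL (toSy E).L c₀ (1 : ℚ) t :=
      Pool.Agent.H43.WA.onY_PL (E := toSy E) ⟨hne, hsol⟩
    have hPL := Pool.Agent.H43.FW.pl_smul (Pool.Agent.H43.UB.l_hom (toSy E) hE) c₀ 1 t
      ((t.den : ℤ) : ℚ) hxQ hPL1
    have hy : ((t.den : ℤ) : ℚ) * t = ((t.num : ℤ) : ℚ) := by
      rw [Int.cast_natCast, mul_comm]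
      exact Rat.mul_den_eq_num t
    rw [mul_one, hy] at hPL
    have hG0 : ∀ i, Pool.Agent.N718.DC.fm (c₀ i) (t.den : ℤ) t.num ≠ 0 := by
      intro i h0
      apply hPL.1 i
      have h1 := hcast ℚ c₀ i (t.den : ℤ) t.num
      rw [h0, Int.cast_zero] at h1
      exact h1
    have hLQ : (toSy E).L ℚ (fun k => ((Pool.Agent.N718.DC.fm (c₀ k) (t.den : ℤ) t.num : ℤ) : ℚ)) := by
      have h1 : (fun i => ((Pool.Agent.N718.DC.fm (c₀ i) (t.den : ℤ) t.num : ℤ) : ℚ)) =
        fun i => Pool.Agent.N718.DC.fmv (c₀ i) (((t.den : ℤ)) : ℚ) ((t.num : ℤ) : ℚ) :=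
          funext fun i => (hcast ℚ c₀ i (t.den : ℤ) t.num).symm
      rw [h1]
      exact hPL.2
    have htU' : ((t.num : ℤ) : ℝ) / ((t.den : ℤ) : ℝ) ∈ U := by
      have h1 : (t : ℝ) = ((t.num : ℤ) : ℝ) / ((t.den : ℤ) : ℝ) := by
        conv_lhs => rw [ht]
        push_cast
        rfl
      rwa [← h1]
    obtain ⟨δ, hδ, H₀, h⟩ := Pool.Agent.H43.UB.posu (toSy E) d U hU c₀ (t.den : ℤ) t.num hx htU' hG0 hLQ
    refine ⟨δ, hδ, H₀, fun H hH => ?_⟩
    rw [card_box]
    refine h H hH _ fun c hc hex => ?_
    obtain ⟨x, y, hx, hy, hne, hR⟩ := hex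
    have hxq : (x : ℚ) ≠ 0 := by exact_mod_cast hx.ne'
    have hP := Pool.Agent.H43.FW.pl_smul (Pool.Agent.H43.UB.l_hom (toSy E) hE) c (x : ℚ) (y : ℚ)
      ((x : ℚ)⁻¹) (inv_ne_zero hxq) ⟨hne, hR⟩
    rw [inv_mul_cancel₀ hxq, inv_mul_eq_div] at hP
    have h3 : ∀ k, ∃ w : Fin 3 → ℚ, w ≠ 0 ∧
        w 2 ^ 2 = ((E.a k : ℚ) * ∏ i ∈ E.I k, form (c i) 1 ((y : ℚ) / x)) * w 0 ^ 2 +
          ((E.b k : ℚ) * ∏ i ∈ E.J k, form (c i) 1 ((y : ℚ) / x)) * w 1 ^ 2 := by
      intro k
      obtain ⟨u, v, w, h1, h2⟩ := hP.2 k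
      refine ⟨![u, v, w], fun h0 => ?_, h2⟩
      have e0 := congrFun h0 0
      have e1 := congrFun h0 1
      have e2 := congrFun h0 2
      simp at e0 e1 e2
      rcases h1 with h1 | h1 | h1
      · exact h1 e0
      · exact h1 e1
      · exact h1 e2
    choose w hw1 hw2 using h3
    refine mem_filter.2 ⟨hc, (y : ℚ) / x, w, ?_, hP.1, fun k => ⟨hw1 k, hw2 k⟩⟩
    push_cast
    exact hy

end Pool.Agent.Results.MP_12adaf_nt.BrauerManinConicSystems
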