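import Pool.Agent.H43.PW.Pos
import Pool.Agent.H43.PN.Nec

/-!
# The Hasse principle and weak approximation for almost all systems of conic bundles over projective spaces

Let `n ≥ 2`.  `m` integral forms `F_1, …, F_m` in `n + 1` variables, of any degrees, are chosen at
random, and an arbitrary finite system of conics

  `z² = a_k ∏_{i ∈ I_k} F_i(x) u² + b_k ∏_{i ∈ J_k} F_i(x) v²`,  `k < r`,

is given, with constants `a_k, b_k ≠ 0` and any sets `I_k, J_k` of forms for which the two coefficients
have even degrees.  Let `X` be (a smooth projective model of) the fibre product over the projective space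
of dimension `n` of these conic bundles, a rationally connected variety of dimension `n + r` which has
degenerate fibres over the zeros of all the forms.

We show that for 100% of the families of forms, ordered by their height `H`, there is a rational point
whenever there are local points at the real place and at the primes up to `M(H)` which are orthogonal to
certain vertical Brauer classes (Hasse principle); and the rational point approximates the local points to
precision `1 / M(H)`, in the base and in the fibres, at all these places at which the base point is not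
closer than `1 / M(H)` to the degenerate fibres and to infinity; here `M(H) → ∞`.

The condition of orthogonality is necessary: for all large `M` and for all forms, every rational point of
`X` at which no prime `p > M` divides more than `n + 1` of the values of the forms is orthogonal to the
classes, at the real place and at the primes up to `M`.  If there are at most `n + 1` forms, this holds for
all the rational points.

The classes.  For a set `R` of pairs `(k, i)` we take the class
`∑ (F_i, c_{k,i} ∏_{j > i} F_j ^ m_k(i, j))`, the sum over the `(k, i)` in `R`, where the `k`-th conic has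
the residue `c_{k,i} ∏_{j ≠ i} F_j ^ m_k(i, j)` at `F_i`.  It is called unramified (more precisely: over the
points of codimension one of the projective space) if its residue at each `F_i` is the product of the
residues of conics with `(k, i) ∈ R` and if a certain number, the residue at infinity, is a square.  It is
called persistent if moreover for all large primes `p` it is trivial at all the `p`-adic points of `X` at
which at most `n + 1` of the forms are divisible by `p`.  So it is unramified also over the points of the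
projective space where up to `n` of the forms vanish; and it takes the value `1` even at the `p`-adic points
over a common zero modulo `p` of `n + 1` forms, for large `p` (for almost all the tuples there are such
primes `p`, although `n + 1` forms have no common zero over the complex numbers).  Only the orthogonality to
the persistent classes is needed.  For the conic `z² = a F_1 F_2 u² + b v²`, for instance, the class
`(F_1, b)` is unramified in codimension one (if the degrees are even) but ramified over `F_1 = F_2 = 0` and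
not persistent, and it does not obstruct.
-/

set_option autoImplicit false
set_option linter.all false

namespace Pool.Agent.Results.MP_12adaf_nt.ConicSystemsOverPn

open Finset Filter Topology

/-- The exponents of the monomials of degree `D` in `n + 1` variables. -/
abbrev Exps (n D : ℕ) : Type :=
  {a : Fin (n + 1) → ℕ // a ∈ Finset.piAntidiag (Finset.univ : Finset (Fin (n + 1))) D}

/-- The coefficients of tuples of `m` forms in `n + 1` variables, of degrees `d i + 1`. -/
abbrev Forms {m : ℕ} (n : ℕ) (d : Fin m → ℕ) : Type := (i : Fin m) → Exps n (d i + 1) → ℤ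

/-- The value of the `i`-th form at `(1, t_1, …, t_n)`. -/
def value {m n : ℕ} {d : Fin m → ℕ} (c : Forms n d) {K : Type} [Field K] (t : Fin n → K)
    (i : Fin m) : K :=
  ∑ a : Exps n (d i + 1), (c i a : K) * ∏ j, (Fin.cons 1 t : Fin (n + 1) → K) j ^ (a.1 j)

/-- The tuples with coefficients of absolute value at most `H`. -/
noncomputable def box {m : ℕ} (n : ℕ) (d : Fin m → ℕ) (H : ℕ) : Finset (Forms n d) :=
  Fintype.piFinset (fun _ => Fintype.piFinset (fun _ => Icc (-(H : ℤ)) H))

/-- The data of the conics `z² = a_k ∏_{i ∈ I_k} F_i u² + b_k ∏_{i ∈ J_k} F_i v²`, `k < r`. -/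
structure System (r m : ℕ) where
  /-- the forms which divide the first coefficient -/
  I : Fin r → Finset (Fin m)
  /-- the forms which divide the second coefficient -/
  J : Fin r → Finset (Fin m)
  /-- the constant in the first coefficient -/
  a : Fin r → ℤ
  /-- the constant in the second coefficient -/
  b : Fin r → ℤ
  ha : ∀ k, a k ≠ 0
  hb : ∀ k, b k ≠ 0

variable {n r m : ℕ} {d : Fin m → ℕ}

/-- The degrees of all the coefficients are even. -/
def EvenDegrees (E : System r m) (d : Fin m → ℕ) : Prop :=
  ∀ k, Even (∑ i ∈ E.I k, (d i + 1)) ∧ Even (∑ i ∈ E.J k, (d i + 1))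

/-- `(t, w)` is a point over the field `K` of the part of `X` over the affine space `x_0 ≠ 0` where no
form vanishes: `w k = (u, v, z)` are homogeneous coordinates of a point of the conic
`z² = a_k ∏_{i ∈ I_k} F_i(1, t) u² + b_k ∏_{i ∈ J_k} F_i(1, t) v²`. -/
def IsPoint (E : System r m) (c : Forms n d) {K : Type} [Field K] (t : Fin n → K)
    (w : Fin r → Fin 3 → K) : Prop :=
  (∀ i, value c t i ≠ 0) ∧ ∀ k, w k ≠ 0 ∧
    w k 2 ^ 2 = ((E.a k : K) * ∏ i ∈ E.I k, value c t i) * w k 0 ^ 2 +
      ((E.b k : K) * ∏ i ∈ E.J k, value c t i) * w k 1 ^ 2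

/-! ### The Brauer classes -/

/-- The conic `z² = A u² + B v²` has a point over `K`. -/
def ConicPoint {K : Type} [Field K] (A B : K) : Prop :=
  ∃ u v z : K, (u ≠ 0 ∨ v ≠ 0 ∨ z ≠ 0) ∧ z ^ 2 = A * u ^ 2 + B * v ^ 2

/-- The constant `c_{k,i}` in the residue of the conic `k` at the form `F_i`. -/
def System.const (E : System r m) (k : Fin r) (i : Fin m) : ℤ :=
  (if i ∈ E.I k then E.b k else 1) * (if i ∈ E.J k then E.a k else 1) *
    (if i ∈ E.I k ∧ i ∈ E.J k then -1 else 1)

/-- The exponent `m_k(i, j)` of `F_j` in the residue of the conic `k` at `F_i`. -/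
def System.mult (E : System r m) (k : Fin r) (i j : Fin m) : ℕ :=
  (if i ∈ E.I k ∧ j ∈ E.J k then 1 else 0) + (if j ∈ E.I k ∧ i ∈ E.J k then 1 else 0)

open Classical in
/-- The Hilbert symbol over `K`. -/
noncomputable def symbol {K : Type} [Field K] (A B : K) : ℤ := if ConicPoint A B then 1 else -1

/-- The value, as a sign, of the class `∑_{(k, i) ∈ R} (F_i, c_{k,i} ∏_{j > i} F_j ^ m_k(i, j))` for the
values `v i` of the `F_i`. -/
noncomputable def valueAt (E : System r m) (R : Finset (Fin r × Fin m)) {K : Type} [Field K]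
    (v : Fin m → K) : ℤ :=
  ∏ q ∈ R, symbol (v q.2) ((E.const q.1 q.2 : K) * ∏ j ∈ Ioi q.2, v j ^ E.mult q.1 q.2 j)

/-- The value of the class at a point over `(1, t)`. -/
noncomputable def classValue (E : System r m) (c : Forms n d) (R : Finset (Fin r × Fin m)) {K : Type}
    [Field K] (t : Fin n → K) : ℤ :=
  valueAt E R (fun i => value c t i)

/-- The class is unramified (over the points of codimension one): for `i < j` the exponents of `F_j` at
`F_i` and of `F_i` at `F_j` have even sum, and the residue at infinity is a square. -/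
def Unramified (E : System r m) (d : Fin m → ℕ) (R : Finset (Fin r × Fin m)) : Prop :=
  (∀ i j, i < j → Even (∑ q ∈ R, if q.2 = i ∨ q.2 = j then E.mult q.1 i j else 0)) ∧
  IsSquare (∏ q ∈ R, ((-1) ^ ((d q.2 + 1) * ∑ j ∈ Ioi q.2, (d j + 1) * E.mult q.1 q.2 j) *
    E.const q.1 q.2 ^ (d q.2 + 1)))

instance primeFact (p : Nat.Primes) : Fact (p : ℕ).Prime := ⟨p.2⟩

/-- The unramified class is persistent: for all large primes `p` it is trivial for all the values
`v i` of the forms, at most `n + 1` of them divisible by `p`, for which the conics have `p`-adic points. -/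
def Persistent (n : ℕ) (E : System r m) (d : Fin m → ℕ) (R : Finset (Fin r × Fin m)) : Prop :=
  Unramified E d R ∧ ∃ B : ℕ, ∀ p : Nat.Primes, B < (p : ℕ) → ∀ v : Fin m → ℤ, (∀ i, v i ≠ 0) →
    (∃ J : Finset (Fin m), J.card ≤ n + 1 ∧ ∀ k, ((p : ℕ) : ℤ) ∣ v k → k ∈ J) →
    (∀ k, ConicPoint ((E.a k : ℚ_[(p : ℕ)]) * ∏ i ∈ E.I k, (v i : ℚ_[(p : ℕ)]))
      ((E.b k : ℚ_[(p : ℕ)]) * ∏ i ∈ E.J k, (v i : ℚ_[(p : ℕ)]))) →
    valueAt E R (fun i => (v i : ℚ_[(p : ℕ)])) = 1

/-! ### Weak approximation -/

/-- After multiplication of `b` by a nonzero number of `K`, each of the homogeneous coordinates `a j`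
and `b j` differ by at most `δ` times the absolute value of `a j`, up to an error `ε`. -/
def Close {K : Type} [NormedField K] (δ ε : ℝ) (a b : Fin 3 → K) : Prop :=
  ∃ l : K, l ≠ 0 ∧ ∀ j, ‖a j - l * b j‖ ≤ δ * ‖a j‖ + ε

/-- The Hasse principle and weak approximation with Brauer-Manin obstruction, to precision `1 / M` at the
real place and at the primes up to `M` (the set `S`), for a tuple of forms of height at most `H`.
Let `(t p, w p)` for `p ∈ S` and `(tR, wR)` be any local points such that the product of the values of
every persistent class is `1`.  Then there is a rational point.  At the places at which the local point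
has coordinates of absolute value at most `M` in the base and at which the values of the forms have
absolute values at least `1 / M` (at the real place: at least `H / M`), the base coordinates of the
rational point differ from those of the local point by at most `1 / M`, and it is close to the local
point in the fibres. -/
def Approximation (E : System r m) (H M : ℕ) (c : Forms n d) : Prop :=
  ∀ S : Finset Nat.Primes, (∀ p : Nat.Primes, p ∈ S ↔ (p : ℕ) ≤ M) →
    ∀ (t : (p : Nat.Primes) → Fin n → ℚ_[(p : ℕ)]) (w : (p : Nat.Primes) → Fin r → Fin 3 → ℚ_[(p : ℕ)])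
    (tR : Fin n → ℝ) (wR : Fin r → Fin 3 → ℝ),
    (∀ p ∈ S, IsPoint E c (t p) (w p)) → IsPoint E c tR wR →
    (∀ R, Persistent n E d R → classValue E c R tR * ∏ p ∈ S, classValue E c R (t p) = 1) →
    ∀ ε : ℝ, 0 < ε → ∃ (q : Fin n → ℚ) (z : Fin r → Fin 3 → ℚ), IsPoint E c q z ∧
      (∀ p ∈ S, (∀ j, ‖t p j‖ ≤ M) → (∀ i, 1 / (M : ℝ) ≤ ‖value c (t p) i‖) →
        (∀ j, ‖t p j - (q j : ℚ_[(p : ℕ)])‖ ≤ 1 / (M : ℝ)) ∧
        ∀ k, Close (1 / (M : ℝ)) ε (w p k) (fun j => (z k j : ℚ_[(p : ℕ)]))) ∧
      ((∀ j, |tR j| ≤ M) → (∀ i, (H : ℝ) / (M : ℝ) ≤ |value c tR i|) →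
        (∀ j, |tR j - (q j : ℝ)| ≤ 1 / (M : ℝ)) ∧
        ∀ k, Close (1 / (M : ℝ)) ε (wR k) (fun j => (z k j : ℝ)))

/-- The value of the `i`-th form at an integral point. -/
def integralValue (c : Forms n d) (x : Fin (n + 1) → ℤ) (i : Fin m) : ℤ :=
  ∑ a : Exps n (d i + 1), c i a * ∏ j, x j ^ (a.1 j)

/-- The affine coordinates `x_j / x_0` of an integral point, in the field `K`. -/
def affine (x : Fin (n + 1) → ℤ) (K : Type) [Field K] (j : Fin n) : K := (x j.succ : K) / (x 0 : K)

/-- The rational points are orthogonal to the persistent classes at the real place and at the primes up to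
`M` (the set `S`): for all forms and every rational point of `X` over the point with integral coordinates
`x`, such that no prime `p > M` divides more than `n + 1` of the values of the forms at `x`, the product of
the values of every persistent class is `1`. -/
def Orthogonality (n : ℕ) (E : System r m) (d : Fin m → ℕ) (M : ℕ) : Prop :=
  ∀ S : Finset Nat.Primes, (∀ p : Nat.Primes, p ∈ S ↔ (p : ℕ) ≤ M) →
    ∀ (c : Forms n d) (x : Fin (n + 1) → ℤ) (z : Fin r → Fin 3 → ℚ), x 0 ≠ 0 →
    IsPoint E c (affine x ℚ) z →
    (∀ p : Nat.Primes, M < (p : ℕ) → ∃ J : Finset (Fin m), J.card ≤ n + 1 ∧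
      ∀ k, ((p : ℕ) : ℤ) ∣ integralValue c x k → k ∈ J) →
    ∀ R, Persistent n E d R →
      classValue E c R (affine x ℝ) * ∏ p ∈ S, classValue E c R (affine x ℚ_[(p : ℕ)]) = 1

/-- There is a rational point of `X` over a point `t` where no form vanishes. -/
def Rational (E : System r m) (c : Forms n d) : Prop :=
  ∃ (t : Fin n → ℚ) (z : Fin r → Fin 3 → ℚ), IsPoint E c t z

/-- the system in the notation of the proof -/
def toSy (E : System r m) : Pool.Agent.H43.UB.Sy r m := ⟨E.I, E.J, E.a, E.b, E.ha, E.hb⟩

/-- Diagonalisation: if `Q H m` holds for every `m ≥ M₀` and all large `H`, then there is a function `m`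
tending to infinity such that `Q H (m H)` holds for all large `H`. -/
lemma diagonal (M₀ : ℕ) (Q : ℕ → ℕ → Prop)
    (hQ : ∀ m : ℕ, M₀ ≤ m → ∃ H₀ : ℕ, ∀ H : ℕ, H₀ ≤ H → Q H m) :
    ∃ m : ℕ → ℕ, Tendsto m atTop atTop ∧ ∀ᶠ H : ℕ in atTop, Q H (m H) := by
  have hQ' : ∀ m : ℕ, ∃ H₀ : ℕ, M₀ ≤ m → ∀ H : ℕ, H₀ ≤ H → Q H m := by
    intro m
    by_cases h : M₀ ≤ m
    · obtain ⟨H₀, h1⟩ := hQ m h
      exact ⟨H₀, fun _ => h1⟩
    · exact ⟨0, fun h' => absurd h' h⟩
  choose H₀ hH₀ using hQ'
  refine ⟨fun H => Nat.findGreatest (fun m => ∑ k ∈ Icc 0 m, H₀ k ≤ H) H, ?_, ?_⟩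
  · refine tendsto_atTop.2 fun M => eventually_atTop.2 ⟨max M (∑ k ∈ Icc 0 M, H₀ k), fun H hH => ?_⟩
    exact Nat.le_findGreatest ((le_max_left _ _).trans hH) ((le_max_right _ _).trans hH)
  · refine eventually_atTop.2 ⟨max M₀ (∑ k ∈ Icc 0 M₀, H₀ k), fun H hH => ?_⟩
    have hP1 : ∑ k ∈ Icc 0 M₀, H₀ k ≤ H := (le_max_right _ _).trans hH
    have h1 : M₀ ≤ Nat.findGreatest (fun m => ∑ k ∈ Icc 0 m, H₀ k ≤ H) H :=
      Nat.le_findGreatest (P := fun m => ∑ k ∈ Icc 0 m, H₀ k ≤ H) ((le_max_left _ _).trans hH) hP1
    have h2 : ∑ k ∈ Icc 0 (Nat.findGreatest (fun m => ∑ k ∈ Icc 0 m, H₀ k ≤ H) H), H₀ k ≤ H :=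
      Nat.findGreatest_spec (P := fun m => ∑ k ∈ Icc 0 m, H₀ k ≤ H)
        ((le_max_left _ _).trans hH) hP1
    exact hH₀ _ h1 H ((Finset.single_le_sum (f := H₀) (fun _ _ => Nat.zero_le _)
      (Finset.mem_Icc.2 ⟨Nat.zero_le _, le_rfl⟩)).trans h2)

lemma card_box (n : ℕ) (d : Fin m → ℕ) (H : ℕ) : ((box n d H).card : ℝ) =
    ((2 * H + 1 : ℕ) : ℝ) ^ Pool.Agent.N546.PN.sz n d := by
  have h := Pool.Agent.N123.PN.card_bx n d H
  have h2 : (box n d H).card = (2 * H + 1) ^ Pool.Agent.N546.PN.sz n d := h
  rw [h2]
  push_cast
  rfl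

open Classical in
/-- **Theorem.** Let `n ≥ 2`, and let `E` be any finite system of conics whose coefficients are constants
times products of `m` forms, of even degrees.  For 100% of the tuples of integral forms in `n + 1`
variables, ordered by height, orthogonality to the persistent classes, at the places up to `M(H)`, is the
only condition for the existence of rational points and for weak approximation, to a precision which
tends to `0`, at the places up to `M(H)` at which the local point is not too close to the degenerate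
fibres.  Conversely, the rational points satisfy this condition, for all the forms and all large `M`, if no
prime `p > M` divides more than `n + 1` of the values of the forms (for at most `n + 1` forms this holds
always).  If for one tuple of forms there is a rational point, then this is the case for a positive
proportion of the tuples. -/
theorem result (n r m : ℕ) (hn : 2 ≤ n) (d : Fin m → ℕ) (E : System r m) (hE : EvenDegrees E d) :
    (∃ M : ℕ → ℕ, Tendsto M atTop atTop ∧ Tendsto (fun H : ℕ =>
      (((box n d H).filter (fun c => Approximation E H (M H) c)).card : ℝ) /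
        ((box n d H).card : ℝ)) atTop (𝓝 1)) ∧
    (∃ M₁ : ℕ, ∀ M : ℕ, M₁ ≤ M → Orthogonality n E d M) ∧
    ((∃ c₀ : Forms n d, Rational E c₀) → ∃ δ : ℝ, 0 < δ ∧ ∃ H₀ : ℕ, ∀ H : ℕ, H₀ ≤ H →
        δ * ((box n d H).card : ℝ) ≤ (((box n d H).filter (fun c => Rational E c)).card : ℝ)) := by
  have hpos : ∀ H : ℕ, (0 : ℝ) < ((box n d H).card : ℝ) := by
    intro H
    rw [card_box]
    positivity
  refine ⟨?_, ?_, ?_⟩
  · obtain ⟨C, M₀, hC0, hC⟩ := Pool.Agent.H43.PN.mainN n r m (toSy E) d hE hn
    obtain ⟨M, hM, hev⟩ := diagonal M₀ (fun H M =>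
      (((box n d H).filter (fun c => ¬ Approximation E H M c)).card : ℝ) ≤
        C / (M : ℝ) * ((box n d H).card : ℝ)) (fun M hM => by
        obtain ⟨H₀, h⟩ := hC M hM
        refine ⟨H₀, fun H hH => ?_⟩
        rw [card_box]
        refine le_trans ?_ (h H hH)
        rw [Nat.cast_le]
        refine card_le_card fun c hc => ?_
        obtain ⟨hc1, hc2⟩ := mem_filter.1 hc
        exact mem_filter.2 ⟨hc1, fun hg => hc2 hg⟩)
    refine ⟨M, hM, ?_⟩
    have hlow : Tendsto (fun H : ℕ => 1 - C * (1 / ((M H : ℕ) : ℝ))) atTop (𝓝 1) := by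
      have h1 : Tendsto (fun H : ℕ => 1 / ((M H : ℕ) : ℝ)) atTop (𝓝 0) := by
        have := tendsto_one_div_atTop_nhds_zero_nat (𝕜 := ℝ)
        exact this.comp hM
      simpa using (tendsto_const_nhds (x := (1 : ℝ))).sub (h1.const_mul C)
    refine tendsto_of_tendsto_of_tendsto_of_le_of_le' hlow tendsto_const_nhds ?_ ?_
    · filter_upwards [hev] with H hH
      rw [le_div_iff₀ (hpos H)]
      have h1 := Finset.card_filter_add_card_filter_not (s := box n d H)
        (fun c => Approximation E H (M H) c)
      have h2 : (((box n d H).filter (fun c => Approximation E H (M H) c)).card : ℝ) +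
          (((box n d H).filter (fun c => ¬ Approximation E H (M H) c)).card : ℝ) =
          ((box n d H).card : ℝ) := by
        exact_mod_cast h1
      have h3 : C * (1 / ((M H : ℕ) : ℝ)) = C / ((M H : ℕ) : ℝ) := by ring
      rw [h3]
      linarith
    · filter_upwards with H
      rw [div_le_one (hpos H)]
      exact_mod_cast card_le_card (filter_subset _ _)
  · have h : ∀ R : Finset (Fin r × Fin m), ∃ M₁ : ℕ, Persistent n E d R → ∀ M : ℕ, M₁ ≤ M →
        ∀ S : Finset Nat.Primes, (∀ p : Nat.Primes, p ∈ S ↔ (p : ℕ) ≤ M) →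
        ∀ (c : Forms n d) (x : Fin (n + 1) → ℤ) (z : Fin r → Fin 3 → ℚ), x 0 ≠ 0 →
        IsPoint E c (affine x ℚ) z →
        (∀ p : Nat.Primes, M < (p : ℕ) → ∃ J : Finset (Fin m), J.card ≤ n + 1 ∧
          ∀ k, ((p : ℕ) : ℤ) ∣ integralValue c x k → k ∈ J) →
        classValue E c R (affine x ℝ) * ∏ p ∈ S, classValue E c R (affine x ℚ_[(p : ℕ)]) = 1 := by
      intro R
      by_cases hR : Persistent n E d R
      · obtain ⟨M₁, h⟩ := Pool.Agent.H43.PN.nec (toSy E) hE (by omega) R hR
        exact ⟨M₁, fun _ => h⟩
      · exact ⟨0, fun h => absurd h hR⟩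
    choose f hf using h
    refine ⟨∑ R, f R, fun M hM S hS c x z hx hz hJ R hR => ?_⟩
    exact hf R hR M ((Finset.single_le_sum (f := f) (fun _ _ => Nat.zero_le _)
      (Finset.mem_univ R)).trans hM) S hS c x z hx hz hJ
  · rintro ⟨c₀, t, z, h⟩
    obtain ⟨δ, hδ, H₀, hH₀⟩ := Pool.Agent.H43.PW.posw (toSy E) hE (by omega) c₀ t z h
    refine ⟨δ, hδ, H₀, fun H hH => ?_⟩
    rw [card_box]
    exact hH₀ H hH

end Pool.Agent.Results.MP_12adaf_nt.ConicSystemsOverPn
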