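import Pool.Agent.H43.FW.Sys
import Pool.Agent.H43.TH.Pos

/-!
# Only two coefficients of every polynomial are random

Consider `m` polynomials `F_k(t) = c_k + b_k t + (given terms) + A_k t ^ (d_k + 1)` (in homogeneous
form, so that also the fibre at infinity is considered) and a system of diagonal conics whose
coefficients are constants times some of the `F_k`, two conics having at most one of them in common.
The leading coefficients `A_k ≠ 0` are fixed, **all the other coefficients except `b_k` and `c_k` are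
arbitrary** (chosen by an adversary, of absolute value at most `H`), and only the `b_k`, `c_k` are
random integers in `[-H, H]`.

For almost all choices of the `b_k`, `c_k` the fibre product over the projective line of the conic
bundles satisfies the Hasse principle with approximation of the base point, where at the real place we
ask for points over the bounded interval `(u, v)`; uniformly in the given coefficients.  And a positive
proportion has rational points over `(u, v)`, if `u < 0 < v` and if the conics are soluble for one choice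
of nonzero values of the forms.

For instance the surfaces `(f_0(t) + b_0 t + c_0) X ^ 2 + (f_1(t) + b_1 t + c_1) Y ^ 2 =
(f_2(t) + b_2 t + c_2) Z ^ 2`, for any fixed polynomials `f_0, f_1, f_2` of degrees at least two of the
same parity: a family with six parameters, while the number of the degenerate fibres is arbitrary.
-/

set_option autoImplicit false
set_option linter.all false

namespace Pool.Agent.Results.MP_12adaf_nt.TwoRandomCoefficients

open Finset

/-- The value at `(x, y)` of the binary form of degree `d + 1` with the coefficients `c`; the value at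
`(1, t)` is `c 0 + c 1 * t + ⋯ + c (d + 1) * t ^ (d + 1)`. -/
def form {d : ℕ} (c : Fin (d + 2) → ℤ) {K : Type} [Field K] (x y : K) : K :=
  ∑ j : Fin (d + 2), (c j : K) * x ^ (d + 1 - (j : ℕ)) * y ^ (j : ℕ)

/-- The coefficients of tuples of `m` binary forms of degrees `d k + 1`. -/
abbrev Forms {m : ℕ} (d : Fin m → ℕ) : Type := (k : Fin m) → Fin (d k + 2) → ℤ

/-- The forms with the coefficients `ρ`, except that the first two coefficients of the form with index
`k` are `b k 0` and `b k 1`. -/
def fill {m : ℕ} {d : Fin m → ℕ} (ρ : Forms d) (b : Fin m → Fin 2 → ℤ) : Forms d :=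
  fun k j => if (j : ℕ) = 0 then b k 0 else if (j : ℕ) = 1 then b k 1 else ρ k j

/-- The given coefficients have absolute value at most `H` and the leading coefficients `A`. -/
def Admissible {m : ℕ} {d : Fin m → ℕ} (A : Fin m → ℤ) (H : ℕ) (ρ : Forms d) : Prop :=
  (∀ k j, |ρ k j| ≤ H) ∧ ∀ k, ρ k (Fin.last (d k + 1)) = A k

/-- The possible values of the pairs of random coefficients. -/
noncomputable def box (m : ℕ) (H : ℕ) : Finset (Fin m → Fin 2 → ℤ) :=
  Fintype.piFinset (fun _ => Fintype.piFinset (fun _ => Icc (-(H : ℤ)) H))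

/-- A diagonal conic `∑ a_l V_l u_l² = 0`, where `V_l` is the form with index `i` if `o l = some i`,
and `V_l = 1` if `o l = none`; the three forms which occur are different. -/
structure Conic (m : ℕ) where
  /-- the constants -/
  a : Fin 3 → ℤ
  /-- the forms -/
  o : Fin 3 → Option (Fin m)
  ha : ∀ l, a l ≠ 0
  ho : ∀ l l' i, o l = some i → o l' = some i → l = l'

/-- The form with index `i` occurs in the conic. -/
def Conic.Has {m : ℕ} (E : Conic m) (i : Fin m) : Prop := ∃ l, E.o l = some i

/-- The coefficients `a_l V_l` of the conic if the forms have the values `v`. -/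
def Conic.coeff {m : ℕ} (E : Conic m) {K : Type} [Field K] (v : Fin m → K) (l : Fin 3) : K :=
  (E.a l : K) * (E.o l).elim 1 v

/-- All the conics have points over `K` if the forms have the values `v`. -/
def Soluble {r m : ℕ} (E : Fin r → Conic m) {K : Type} [Field K] (v : Fin m → K) : Prop :=
  ∀ k, ∃ u : Fin 3 → K, u ≠ 0 ∧ ∑ l, (E k).coeff v l * u l ^ 2 = 0

/-- The degrees of the three coefficients of the conic have the same parity. -/
def Conic.SameParity {m : ℕ} (E : Conic m) (d : Fin m → ℕ) : Prop :=
  ∀ l l', (E.o l).elim 0 (fun i => d i + 1) % 2 = (E.o l').elim 0 (fun i => d i + 1) % 2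

/-- Two different conics have at most one form in common. -/
def Linear {r m : ℕ} (E : Fin r → Conic m) : Prop :=
  ∀ k k' i j, i ≠ j → (E k).Has i → (E k).Has j → (E k').Has i → (E k').Has j → k = k'

/-- The fibre product of the conic bundles has a point over the field `K` over the point `(x, y)` of
the projective line, and no form vanishes there. -/
def Pt {r m : ℕ} {d : Fin m → ℕ} (E : Fin r → Conic m) (c : Forms d) {K : Type} [Field K]
    (x y : K) : Prop :=
  (∀ i, form (c i) x y ≠ 0) ∧ Soluble E (fun i => form (c i) x y)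

instance primeFact (p : Nat.Primes) : Fact (p : ℕ).Prime := ⟨p.2⟩

/-- There are real points over points `(1 : z)` with `u < z < v`, and points over all `ℚ_p`. -/
def Local {r m : ℕ} {d : Fin m → ℕ} (E : Fin r → Conic m) (u v : ℝ) (c : Forms d) : Prop :=
  (∃ z : ℝ, u < z ∧ z < v ∧ Pt E c (1 : ℝ) z) ∧
    ∀ p : Nat.Primes, ∃ x y : ℚ_[(p : ℕ)], Pt E c x y

/-- There is a rational point over a point `(1 : z)` with `u < z < v`. -/
def Rational {r m : ℕ} {d : Fin m → ℕ} (E : Fin r → Conic m) (u v : ℝ) (c : Forms d) : Prop :=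
  ∃ x y : ℤ, 0 < x ∧ u < (y : ℝ) / x ∧ (y : ℝ) / x < v ∧ Pt E c (x : ℚ) (y : ℚ)

/-- For all local points over primitive base points `(X_p, Y_p)`, `p ∈ S`, there is a rational point
over a point `(1 : z)` with `u < z < v` whose base point is congruent to them modulo `p ^ N`. -/
def Approx {r m : ℕ} {d : Fin m → ℕ} (E : Fin r → Conic m) (u v : ℝ) (S : Finset Nat.Primes)
    (N : ℕ) (c : Forms d) : Prop :=
  ∀ X Y : (p : Nat.Primes) → ℚ_[(p : ℕ)], (∀ p ∈ S, max ‖X p‖ ‖Y p‖ = 1 ∧ Pt E c (X p) (Y p)) →
    ∃ x y : ℤ, 0 < x ∧ u < (y : ℝ) / x ∧ (y : ℝ) / x < v ∧ Pt E c (x : ℚ) (y : ℚ) ∧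
      ∀ p ∈ S, ‖X p - (x : ℚ_[(p : ℕ)])‖ ≤ (((p : ℕ) : ℝ) ^ N)⁻¹ ∧
        ‖Y p - (y : ℚ_[(p : ℕ)])‖ ≤ (((p : ℕ) : ℝ) ^ N)⁻¹

/-- the conic in the notation of the proof -/
def toCon {m : ℕ} (E : Conic m) : Pool.Agent.H43.FW.Con m := ⟨E.a, E.o, E.ha, E.ho⟩

lemma sol_map {m : ℕ} (E : Conic m) (v : Fin m → ℤ) (K : Type) [Field K] [CharZero K]
    (h : ∃ u : Fin 3 → ℚ, u ≠ 0 ∧ ∑ l, E.coeff (fun i => ((v i : ℤ) : ℚ)) l * u l ^ 2 = 0) :
    Pool.Agent.H43.FW.Sol3 ((toCon E).val (fun i => ((v i : ℤ) : K))) := by
  obtain ⟨u, hu, hs⟩ := h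
  refine ⟨fun l => ((u l : ℚ) : K), ?_, ?_⟩
  · intro h0
    apply hu
    funext l
    have := congrFun h0 l
    simpa using this
  · have e : ∀ l, (toCon E).val (fun i => ((v i : ℤ) : K)) l * ((u l : ℚ) : K) ^ 2 =
        ((E.coeff (fun i => ((v i : ℤ) : ℚ)) l * u l ^ 2 : ℚ) : K) := by
      intro l
      unfold Pool.Agent.H43.FW.Con.val Conic.coeff toCon
      dsimp only
      rcases ho : E.o l with _ | i
      · simp
      · simp
    simp only [e]
    rw [← Rat.cast_sum, hs, Rat.cast_zero]

lemma fill_inj {m : ℕ} {d : Fin m → ℕ} (ρ : Forms d) : Function.Injective (fill ρ) := by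
  intro b b' h
  funext k j
  have h0 := congrFun (congrFun h k) 0
  have h1 := congrFun (congrFun h k) 1
  unfold fill at h0 h1
  simp only [Fin.val_zero, if_true] at h0
  rw [if_neg (by simp), if_pos (by simp), if_neg (by simp), if_pos (by simp)] at h1
  have : j = 0 ∨ j = 1 := by
    rcases j with ⟨j, hj⟩
    have : j = 0 ∨ j = 1 := by omega
    rcases this with rfl | rfl
    · left; rfl
    · right; rfl
  rcases this with rfl | rfl
  · exact h0
  · exact h1

lemma fill_mem {m : ℕ} {d : Fin m → ℕ} (ρ : Forms d) (H : ℕ) (b : Fin m → Fin 2 → ℤ)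
    (hb : b ∈ box m H) : fill ρ b ∈ Pool.Agent.H43.TH.tb ρ H := by
  unfold box at hb
  rw [Fintype.mem_piFinset] at hb
  have h := fun k j => mem_Icc.1 (Fintype.mem_piFinset.1 (hb k) j)
  rw [Pool.Agent.H43.TH.mem_tb]
  intro k j
  unfold fill
  constructor
  · intro hj
    split_ifs with h1 h2
    · exact h k 0
    · exact h k 1
    · omega
  · intro hj
    rw [if_neg (by omega), if_neg (by omega)]

lemma fill_surj {m : ℕ} {d : Fin m → ℕ} (ρ : Forms d) (H : ℕ) (c : Forms d)
    (hc : c ∈ Pool.Agent.H43.TH.tb ρ H) : ∃ b ∈ box m H, fill ρ b = c := by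
  rw [Pool.Agent.H43.TH.mem_tb] at hc
  refine ⟨fun k => ![c k 0, c k 1], ?_, ?_⟩
  · unfold box
    rw [Fintype.mem_piFinset]
    intro k
    rw [Fintype.mem_piFinset]
    intro j
    rw [mem_Icc]
    have h0 := (hc k 0).1 (by simp)
    have h1 := (hc k 1).1 (by simp)
    have : j = 0 ∨ j = 1 := by
      rcases j with ⟨j, hj⟩
      have : j = 0 ∨ j = 1 := by omega
      rcases this with rfl | rfl
      · left; rfl
      · right; rfl
    rcases this with rfl | rfl
    · exact h0
    · exact h1
  · funext k j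
    unfold fill
    split_ifs with h1 h2
    · have : j = 0 := Fin.ext h1
      rw [this]
      rfl
    · have : j = 1 := by
        apply Fin.ext
        rw [h2]
        simp
      rw [this]
      rfl
    · exact ((hc k j).2 (by omega)).symm

open Classical in
/-- **Theorem.** Let `E` be a finite system of diagonal conics with coefficients among `m` forms and
constants, such that two different conics have at most one form in common and the degrees of the
coefficients of every conic have the same parity.  Let the leading coefficients `A` of the forms be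
fixed and different from `0`.  For large `H` and for all `ρ` with these leading coefficients and
coefficients of absolute value at most `H`, for almost all pairs `b k` of integers in `[-H, H]` the
following holds for the forms `fill ρ b`: if the fibre product `X` over the projective line of the conic
bundles has points over `ℝ` over `(u, v)` and over all `ℚ_p` then it has rational points over `(u, v)`
whose base points approximate the base points of given `p`-adic points, `p ∈ S`.  If `u < 0 < v` and if
the conics are soluble for one tuple of nonzero values of the forms, then `X` has rational points over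
`(u, v)` for a positive proportion of the `b`, which does not depend on `ρ` and `H`. -/
theorem result (r m : ℕ) (hm : 0 < m) (d : Fin m → ℕ) (E : Fin r → Conic m)
    (hpar : ∀ k, (E k).SameParity d) (hlin : Linear E) (A : Fin m → ℤ) (hA : ∀ k, A k ≠ 0)
    (u v : ℝ) (huv : u < v) :
    (∀ (S : Finset Nat.Primes) (N : ℕ) (η : ℝ), 0 < η → ∃ H₀ : ℕ, ∀ H : ℕ, H₀ ≤ H →
      ∀ ρ : Forms d, Admissible A H ρ →
      (((box m H).filter (fun b => Local E u v (fill ρ b) ∧ ¬ Approx E u v S N (fill ρ b))).card : ℝ) ≤
        η * ((box m H).card : ℝ)) ∧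
    (u < 0 → 0 < v → (∃ w : Fin m → ℤ, (∀ k, w k ≠ 0) ∧ Soluble E (fun k => (w k : ℚ))) →
      ∃ δ : ℝ, 0 < δ ∧ ∃ H₀ : ℕ, ∀ H : ℕ, H₀ ≤ H → ∀ ρ : Forms d, Admissible A H ρ →
      δ * ((box m H).card : ℝ) ≤
        (((box m H).filter (fun b => Rational E u v (fill ρ b))).card : ℝ)) := by
  have hcard : ∀ H : ℕ, ((box m H).card : ℝ) = ((2 * H + 1 : ℕ) : ℝ) ^ (2 * m) := by
    intro H
    unfold box
    simp only [Fintype.card_piFinset, prod_const, Int.card_Icc, card_univ, Fintype.card_fin]
    have : ((H : ℤ) + 1 - -(H : ℤ)).toNat = 2 * H + 1 := by omega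
    rw [this, ← pow_mul]
    push_cast
    rfl
  have hadm : ∀ (H : ℕ) (ρ : Forms d), Admissible A H ρ → Pool.Agent.H43.TH.Adm A H ρ :=
    fun H ρ h => ⟨h.1, fun k _ => h.2 k⟩
  obtain ⟨W₀, hW₀⟩ := Pool.Agent.H43.FW.ls_ari (fun k => toCon (E k)) hlin
  have hsq := Pool.Agent.H43.FW.ls_sq (fun k => toCon (E k))
  have hhom := Pool.Agent.H43.FW.ls_hom (fun k => toCon (E k)) d hpar
  constructor
  · intro S N η hη
    obtain ⟨H₀, h⟩ := Pool.Agent.H43.TH.maina (e := d) A hA hm W₀ hW₀ hsq hhom u v huv S N η hη
    refine ⟨H₀, fun H hH ρ hρ => ?_⟩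
    rw [hcard]
    refine le_trans ?_ (h H hH ρ (hadm H ρ hρ) (((box m H).filter (fun b =>
      Local E u v (fill ρ b) ∧ ¬ Approx E u v S N (fill ρ b))).image (fill ρ)) ?_ ?_)
    · rw [card_image_of_injective _ (fill_inj ρ)]
    · intro c hc
      obtain ⟨b, hb, rfl⟩ := mem_image.1 hc
      exact fill_mem ρ H b (mem_filter.1 hb).1
    · intro c hc
      obtain ⟨b, hb, rfl⟩ := mem_image.1 hc
      obtain ⟨-, ⟨⟨z, hz1, hz2, hz3⟩, h2⟩, h3⟩ := mem_filter.1 hb
      refine ⟨⟨⟨z, ⟨hz1, hz2⟩, hz3⟩, h2⟩, fun ha => h3 ?_⟩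
      intro X Y hXY
      obtain ⟨x, y, hx, hy, hne, hR, hcl⟩ := ha X Y hXY
      exact ⟨x, y, hx, hy.1, hy.2, ⟨hne, hR⟩, hcl⟩
  · rintro hu hv ⟨w, hw, hsol⟩
    obtain ⟨δ, hδ, H₀, h⟩ := Pool.Agent.H43.TH.mainc (e := d) A hA W₀ hW₀ hsq u v hu hv w hw
      (fun k => sol_map (E k) w ℝ (hsol k)) (fun p _ k => sol_map (E k) w ℚ_[p] (hsol k))
    refine ⟨δ, hδ, H₀, fun H hH ρ hρ => ?_⟩
    rw [hcard]
    refine le_trans (h H hH ρ (hadm H ρ hρ) (((box m H).filter (fun b =>
      Rational E u v (fill ρ b))).image (fill ρ)) ?_) ?_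
    · intro c hc hex
      obtain ⟨b, hb, rfl⟩ := fill_surj ρ H c hc
      obtain ⟨x, y, hx, hy, hne, hR⟩ := hex
      exact mem_image.2 ⟨b, mem_filter.2 ⟨hb, x, y, hx, hy.1, hy.2, hne, hR⟩, rfl⟩
    · rw [card_image_of_injective _ (fill_inj ρ)]

end Pool.Agent.Results.MP_12adaf_nt.TwoRandomCoefficients
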